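import Pool.Agent.Helper24.HN.Defs

/-!
# Dynamics near a flop curve with several directions, from one starting state: definitions

The same as `Helper24.HN.Defs` with the following changes. `LocM` has a family (index `I`) of
directions `xi i`, with `psi i`, `kap i`, `sl i`; the zero `z b` of the configuration `RefM` belongs
to the direction `ty b`. There is no condition on the direction of the starting index `y`: the
dynamics starts from one state `StM M y j 2 0 x`.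
-/

set_option autoImplicit false

namespace Pool.Agent.Helper24.HM

open Pool.Agent.Helper24.HN

/-- The local data. -/
structure LocM (p : ℕ) [Fact p.Prime] (n : ℕ) (I : Type) where
  /-- leading coefficient -/
  A : V p n → ℤ_[p]
  /-- middle coefficient -/
  B : V p n → ℤ_[p]
  /-- constant coefficient -/
  C : V p n → ℤ_[p]
  /-- derivative of the leading coefficient -/
  dA : V p n → V p n →ₗ[ℤ_[p]] ℤ_[p]
  /-- derivative of the middle coefficient -/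
  dB : V p n → V p n →ₗ[ℤ_[p]] ℤ_[p]
  /-- derivative of the constant coefficient -/
  dC : V p n → V p n →ₗ[ℤ_[p]] ℤ_[p]
  /-- the directions of the lines over the point -/
  xi : I → V p n → ℤ_[p] → V p n
  /-- the linear coefficients of the equation on the lines -/
  psi : I → V p n → ℤ_[p] → ℤ_[p]
  /-- the quadratic coefficients of the equation on the lines -/
  kap : I → V p n → ℤ_[p] → ℤ_[p]
  /-- the difference quotients of `psi` in `z` -/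
  sl : I → V p n → ℤ_[p] → ℤ_[p] → ℤ_[p]
  hA : ∀ x h, ‖A (x + h) - A x - dA x h‖ ≤ ‖h‖ ^ 2
  hB : ∀ x h, ‖B (x + h) - B x - dB x h‖ ≤ ‖h‖ ^ 2
  hC : ∀ x h, ‖C (x + h) - C x - dC x h‖ ≤ ‖h‖ ^ 2
  hdA : ∀ x h v, ‖dA (x + h) v - dA x v‖ ≤ ‖h‖ * ‖v‖
  hdB : ∀ x h v, ‖dB (x + h) v - dB x v‖ ≤ ‖h‖ * ‖v‖
  hdC : ∀ x h v, ‖dC (x + h) v - dC x v‖ ≤ ‖h‖ * ‖v‖
  hxi : ∀ i x x' z z', ‖xi i x z - xi i x' z'‖ ≤ max ‖x - x'‖ ‖z - z'‖
  hpsi : ∀ i x x' z, ‖psi i x z - psi i x' z‖ ≤ ‖x - x'‖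
  hkap : ∀ i x x' z z', ‖kap i x z - kap i x' z'‖ ≤ max ‖x - x'‖ ‖z - z'‖
  hsl : ∀ i x z w, psi i x z - psi i x w = (z - w) * sl i x z w
  hsl' : ∀ i x x' z z' w w', ‖sl i x z w - sl i x' z' w'‖ ≤ max ‖x - x'‖ (max ‖z - z'‖ ‖w - w'‖)

variable {p : ℕ} [Fact p.Prime] {n : ℕ} {I : Type}

namespace LocM

/-- The data with one direction. -/
def at' (L : LocM p n I) (i : I) : Loc p n where
  A := L.A
  B := L.B
  C := L.C
  dA := L.dA
  dB := L.dB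
  dC := L.dC
  xi := L.xi i
  psi := L.psi i
  kap := L.kap i
  sl := L.sl i
  hA := L.hA
  hB := L.hB
  hC := L.hC
  hdA := L.hdA
  hdB := L.hdB
  hdC := L.hdC
  hxi := L.hxi i
  hpsi := L.hpsi i
  hkap := L.hkap i
  hsl := L.hsl i
  hsl' := L.hsl' i

/-- The quadratic equation over `x`. -/
noncomputable def F (L : LocM p n I) (x : V p n) (z : ℤ_[p]) : ℤ_[p] :=
  L.A x * z ^ 2 + L.B x * z + L.C x

/-- The derivative of the equation at `x` in the direction `v`. -/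
noncomputable def dF (L : LocM p n I) (x v : V p n) (z : ℤ_[p]) : ℤ_[p] :=
  L.dA x v * z ^ 2 + L.dB x v * z + L.dC x v

end LocM

/-- The reference configuration. -/
structure RefM (L : LocM p n I) (J : Type) [DecidableEq J] where
  /-- the base point -/
  u0 : V p n
  /-- the zeros of `psi u0` -/
  z : J → ℤ_[p]
  /-- the direction which belongs to the zero -/
  ty : J → I
  /-- the index of the other root of the starting state -/
  y : J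
  /-- the first index of the cycle -/
  j : J
  /-- the second index of the cycle -/
  m : J
  /-- the third index of the cycle -/
  l : J
  hjm : j ≠ m
  hml : m ≠ l
  hlj : l ≠ j
  hyj : y ≠ j
  hym : y ≠ m
  hyl : y ≠ l
  hz : ∀ a b, a ≠ b → ‖z a - z b‖ = 1
  hpsi : ∀ a, a ≠ y → L.psi (ty a) u0 (z a) = 0
  hsl : ∀ a, a ≠ y → ‖L.sl (ty a) u0 (z a) (z a)‖ = 1
  hkap : ∀ a, a ≠ y → ‖L.kap (ty a) u0 (z a)‖ = 1
  hT : ∀ a b, a ≠ b → b ≠ y → (a ≠ j ∨ b ≠ m) → ‖L.dF u0 (L.xi (ty b) u0 (z b)) (z a)‖ = 1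
  hs : ‖L.dF u0 (L.xi (ty m) u0 (z m)) (z j)‖ = (p : ℝ) ^ (-1 : ℤ)
  hA0 : ‖L.A u0‖ ≤ (p : ℝ) ^ (-2 : ℤ)
  hB0 : ‖L.B u0‖ ≤ (p : ℝ) ^ (-2 : ℤ)
  hC0 : ‖L.C u0‖ ≤ (p : ℝ) ^ (-2 : ℤ)

/-- The points of the curves. -/
structure MemsM (L : LocM p n I) {J : Type} [DecidableEq J] (R : RefM L J) where
  /-- points after the involution over `x` -/
  Mem : ℕ → V p n → ℤ_[p] → Prop
  /-- points after the involution over `y` -/
  Mem' : ℕ → V p n → ℤ_[p] → Prop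
  on : ∀ N x z, Mem N x z → L.F x z = 0
  on' : ∀ N x z, Mem' N x z → L.F x z = 0
  inv2 : ∀ i N x z t, ‖x - R.u0‖ ≤ (p : ℝ) ^ (-2 : ℤ) → Mem N x z → ‖L.kap i x z‖ = 1 →
    t * L.kap i x z = L.psi i x z → Mem' N (x - t • L.xi i x z) z
  rel : ∀ i x z, ‖x - R.u0‖ ≤ (p : ℝ) ^ (-2 : ℤ) → L.A x = 0 → L.B x = 0 → L.C x = 0 →
    L.dF x (L.xi i x z) z = L.psi i x z
  inv1 : ∀ N x z w, ‖x - R.u0‖ ≤ (p : ℝ) ^ (-2 : ℤ) → Mem' N x z → L.A x ≠ 0 →
    (∀ v, L.F x v = L.A x * (v - z) * (v - w)) → Mem (N + 1) x w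

/-- A graph over the ball about `z b`. -/
structure StM {L : LocM p n I} {J : Type} [DecidableEq J] {R : RefM L J} (M : MemsM L R) (i b : J)
    (k N : ℕ) (x : ℤ_[p] → V p n) : Prop where
  hib : i ≠ b
  hk : 2 ≤ k
  ball : ∀ z, ‖z - R.z b‖ ≤ (p : ℝ) ^ (-2 : ℤ) → ‖x z - R.u0‖ ≤ (p : ℝ) ^ (-2 : ℤ)
  mem : ∀ z, ‖z - R.z b‖ ≤ (p : ℝ) ^ (-2 : ℤ) → M.Mem N (x z) z
  lead : ∀ z, ‖z - R.z b‖ ≤ (p : ℝ) ^ (-2 : ℤ) → ‖L.A (x z)‖ = (p : ℝ) ^ (-k : ℤ)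
  lip : ∀ z w, ‖z - R.z b‖ ≤ (p : ℝ) ^ (-2 : ℤ) → ‖w - R.z b‖ ≤ (p : ℝ) ^ (-2 : ℤ) →
    ‖x z - x w‖ ≤ (p : ℝ) ^ (-k : ℤ) * ‖z - w‖
  rt : ∀ z, ‖z - R.z b‖ ≤ (p : ℝ) ^ (-2 : ℤ) → ∃ r, ‖r - R.z i‖ ≤ (p : ℝ) ^ (-2 : ℤ) ∧
    ∀ v, L.F (x z) v = L.A (x z) * (v - z) * (v - r)

/-- One step from the graph `x` over the ball about `z b` to the graph `x'` over the ball about
`z c`. -/
def Link {L : LocM p n I} {J : Type} [DecidableEq J] (R : RefM L J) (k : ℕ) (b c : J)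
    (x x' : ℤ_[p] → V p n) : Prop :=
  ∀ w, ‖w - R.z c‖ ≤ (p : ℝ) ^ (-2 : ℤ) → ∃ z t, ‖z - R.z b‖ ≤ (p : ℝ) ^ (-2 : ℤ) ∧
    ‖t‖ ≤ (p : ℝ) ^ (-k : ℤ) ∧ t * L.kap (R.ty b) (x z) z = L.psi (R.ty b) (x z) z ∧
    x' w = x z - t • L.xi (R.ty b) (x z) z

/-- The steps which are used. -/
def Ok {L : LocM p n I} {J : Type} [DecidableEq J] (R : RefM L J) (b c : J) : Prop :=
  b ≠ c ∧ b ≠ R.y ∧ c ≠ R.y ∧ (b ≠ R.m ∨ c ≠ R.j)

/-- The contraction exponent. -/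
def ex {L : LocM p n I} {J : Type} [DecidableEq J] (R : RefM L J) (i b : J) : ℕ :=
  if i = R.j ∧ b = R.m then 1 else 0

/-- Paths of steps which are used. -/
def OkP {L : LocM p n I} {J : Type} [DecidableEq J] (R : RefM L J) : J → List J → Prop
  | _, [] => True
  | b, c :: P => Ok R b c ∧ OkP R c P

/-- The linear data at the point `x1`; `ty b` is the direction which belongs to `b`. -/
noncomputable def lin (L : LocM p n I) {J : Type} (ty : J → I) (x1 : V p n) (ζ : J → ℤ_[p]) :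
    Lin ℚ_[p] n J where
  qa := fun i => (L.dA x1 (Pi.single i 1) : ℚ_[p])
  qb := fun i => (L.dB x1 (Pi.single i 1) : ℚ_[p])
  qc := fun i => (L.dC x1 (Pi.single i 1) : ℚ_[p])
  ζ := fun a => (ζ a : ℚ_[p])
  v := fun a => cst (L.xi (ty a) x1 (ζ a))

end Pool.Agent.Helper24.HM
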