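import Pool.Agent.Helper24.HM.Defs
import Pool.Agent.Helper24.HN.Basic

/-!
# Dynamics near a flop curve with several directions: estimates
-/

set_option autoImplicit false

namespace Pool.Agent.Helper24.HM

open Pool.Agent.Helper24.HN

variable {p : ℕ} [Fact p.Prime] {n : ℕ} {I : Type}

namespace LocM

variable (L : LocM p n I)

/-- The data without direction. -/
noncomputable def base : Loc p n where
  A := L.A
  B := L.B
  C := L.C
  dA := L.dA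
  dB := L.dB
  dC := L.dC
  xi := fun _ _ => 0
  psi := fun _ _ => 0
  kap := fun _ _ => 0
  sl := fun _ _ _ => 0
  hA := L.hA
  hB := L.hB
  hC := L.hC
  hdA := L.hdA
  hdB := L.hdB
  hdC := L.hdC
  hxi := fun x x' z z' => by
    rw [sub_self, norm_zero]
    exact le_max_of_le_left (norm_nonneg _)
  hpsi := fun x x' z => by
    rw [sub_self, norm_zero]
    exact norm_nonneg _
  hkap := fun x x' z z' => by
    rw [sub_self, norm_zero]
    exact le_max_of_le_left (norm_nonneg _)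
  hsl := fun x z w => by ring
  hsl' := fun x x' z z' w w' => by
    rw [sub_self, norm_zero]
    exact le_max_of_le_left (norm_nonneg _)

theorem dF_add (x v w : V p n) (z : ℤ_[p]) : L.dF x (v + w) z = L.dF x v z + L.dF x w z :=
  L.base.dF_add x v w z

theorem dF_sub (x v w : V p n) (z : ℤ_[p]) : L.dF x (v - w) z = L.dF x v z - L.dF x w z :=
  L.base.dF_sub x v w z

theorem dF_neg (x v : V p n) (z : ℤ_[p]) : L.dF x (-v) z = - L.dF x v z :=
  L.base.dF_neg x v z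

theorem dF_smul (x v : V p n) (a z : ℤ_[p]) : L.dF x (a • v) z = a * L.dF x v z :=
  L.base.dF_smul x v a z

theorem dF_le (x v : V p n) (z : ℤ_[p]) : ‖L.dF x v z‖ ≤ ‖v‖ :=
  L.base.dF_le x v z

theorem dF_x (x x' v : V p n) (z : ℤ_[p]) : ‖L.dF x v z - L.dF x' v z‖ ≤ ‖x - x'‖ * ‖v‖ :=
  L.base.dF_x x x' v z

theorem dF_z (x v : V p n) (z z' : ℤ_[p]) : ‖L.dF x v z - L.dF x v z'‖ ≤ ‖v‖ * ‖z - z'‖ :=
  L.base.dF_z x v z z'

theorem dF_near (x x' v v' : V p n) (z z' : ℤ_[p]) {r : ℝ} (hx : ‖x - x'‖ ≤ r)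
    (hv : ‖v - v'‖ ≤ r) (hz : ‖z - z'‖ ≤ r) : ‖L.dF x v z - L.dF x' v' z'‖ ≤ r :=
  L.base.dF_near x x' v v' z z' hx hv hz

theorem F_x' (x x' : V p n) (z : ℤ_[p]) :
    ‖L.F x' z - L.F x z - L.dF x (x' - x) z‖ ≤ ‖x' - x‖ ^ 2 :=
  L.base.F_x' x x' z

theorem F_lip (x x' : V p n) (z : ℤ_[p]) : ‖L.F x' z - L.F x z‖ ≤ ‖x' - x‖ :=
  L.base.F_lip x x' z

theorem F_z (x : V p n) (z z' : ℤ_[p]) : ‖L.F x z - L.F x z'‖ ≤ ‖z - z'‖ :=
  L.base.F_z x z z'

theorem A_x' (x x' : V p n) : ‖L.A x' - L.A x - L.dA x (x' - x)‖ ≤ ‖x' - x‖ ^ 2 :=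
  L.base.A_x' x x'

end LocM

/-- The linear form `phi`. -/
theorem lin_phi (L : LocM p n I) {J : Type} (ty : J → I) (x1 : V p n) (ζ : J → ℤ_[p]) (w : ℤ_[p])
    (v : V p n) :
    (lin L ty x1 ζ).phi (w : ℚ_[p]) (cst v) = ((L.dF x1 v w : ℤ_[p]) : ℚ_[p]) :=
  HN.lin_phi L.base x1 ζ w v

theorem lin_ld (L : LocM p n I) {J : Type} (ty : J → I) (x1 : V p n) (ζ : J → ℤ_[p]) (v : V p n) :
    (lin L ty x1 ζ).ld (cst v) = ((L.dA x1 v : ℤ_[p]) : ℚ_[p]) :=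
  HN.lin_ld L.base x1 ζ v

end Pool.Agent.Helper24.HM
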