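import Pool.Agent.Helper24.HM.Basic
import Pool.Agent.Helper69.HN.Step

/-!
# One step of the dynamics, several directions
-/

set_option autoImplicit false

namespace Pool.Agent.Helper24.HM

open Pool.Agent.Helper24.HN Pool.Agent.Helper69.HN

variable {p : ℕ} [hp : Fact p.Prime] {n : ℕ} {I : Type}

/-- D2: one step. -/
theorem step {L : LocM p n I} {J : Type} [DecidableEq J] {R : RefM L J} (M : MemsM L R) {i b c : J} {k N : ℕ}
    {x : ℤ_[p] → V p n} (h : StM M i b k N x) (hib : Ok R b c) (hi : i ≠ b) :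
    ∃ x', StM M b c (k + ex R i b) (N + 1) x' ∧ Link R k b c x x' := by
  obtain ⟨hbc, hby, hcy, hmj⟩ := hib
  let L' : Loc p n := L.at' (R.ty b)
  have hp1 : (1 : ℝ) < p := by exact_mod_cast hp.out.one_lt
  have hp0 : (0 : ℝ) < p := zero_lt_one.trans hp1
  obtain ⟨r, hr⟩ : ∃ r : ℝ, r = (p : ℝ) ^ (-2 : ℤ) := ⟨_, rfl⟩
  obtain ⟨a, ha⟩ : ∃ a : ℝ, a = (p : ℝ) ^ (-k : ℤ) := ⟨_, rfl⟩
  have hr0 : 0 < r := by rw [hr]; positivity
  have hr1 : r < 1 := by
    rw [hr]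
    exact zpow_lt_one_of_neg₀ hp1 (by norm_num)
  have ha0 : 0 < a := by rw [ha]; positivity
  have har : a ≤ r := by
    rw [ha, hr]
    exact zpow_le_zpow_right₀ hp1.le (by have := h.hk; omega)
  have hpm1 : r < (p : ℝ) ^ (-1 : ℤ) := by
    rw [hr]
    exact zpow_lt_zpow_right₀ hp1 (by norm_num)
  have hball := h.ball
  have hmem := h.mem
  have hlead := h.lead
  have hlip := h.lip
  have hrt := h.rt
  rw [← hr] at hball hmem hlead hlip hrt
  rw [← ha] at hlead hlip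
  have hkap := R.hkap b hby
  have hpsi := R.hpsi b hby
  have hsl := R.hsl b hby
  obtain ⟨c', hc', hc'1⟩ := exists_inv hkap
  obtain ⟨c0, hc0⟩ : ∃ c0 : ℤ_[p], c0 = L.sl (R.ty b) R.u0 (R.z b) (R.z b) * c' := ⟨_, rfl⟩
  have hc0k : c0 * L.kap (R.ty b) R.u0 (R.z b) = L.sl (R.ty b) R.u0 (R.z b) (R.z b) := by
    rw [hc0, mul_assoc, hc', mul_one]
  have hc01 : ‖c0‖ = 1 := by rw [hc0, norm_mul, hsl, hc'1, mul_one]
  have hTc : ‖L.dF R.u0 (L.xi (R.ty b) R.u0 (R.z b)) (R.z c)‖ = 1 := R.hT c b hbc.symm hby (by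
    rcases hmj with h1 | h1
    · exact Or.inr h1
    · exact Or.inl h1)
  obtain ⟨θ, hθ⟩ : ∃ θ : ℝ, θ = ‖L.dF R.u0 (L.xi (R.ty b) R.u0 (R.z b)) (R.z i)‖ := ⟨_, rfl⟩
  have hθex : θ = (p : ℝ) ^ (-(ex R i b : ℕ) : ℤ) := by
    unfold ex
    split_ifs with h1
    · rw [hθ, h1.1, h1.2]
      exact R.hs
    · rw [hθ, R.hT i b hi hby (by
        by_contra h2
        push Not at h2
        exact h1 h2)]
      simp
  have hθr : r < θ := by
    rw [hθex]
    unfold ex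
    split_ifs with h1
    · exact hpm1
    · simpa using hr1
  have hib1 : ‖R.z i - R.z b‖ = 1 := R.hz i b hi
  have hcb1 : ‖R.z c - R.z b‖ = 1 := R.hz c b hbc.symm
  have hic : R.z i = R.z c ∧ θ = 1 ∨ ‖R.z c - R.z i‖ = 1 := by
    rcases eq_or_ne i c with h1 | h1
    · refine Or.inl ⟨by rw [h1], ?_⟩
      rw [hθ, h1, hTc]
    · exact Or.inr (R.hz c i h1.symm)
  -- the zeros
  have hroot : ∀ v, ‖v - R.z c‖ ≤ r → ∃ z, ‖z - R.z b‖ ≤ r ∧ L.F (xx L' x z) v = 0 := by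
    intro v hv
    refine exists_root (θ := r) hr0.le hr0.le hr1 (R.z b) (fun z => L.F (xx L' x z) v)
      (-(c0 * L.dF R.u0 (L.xi (R.ty b) R.u0 (R.z b)) (R.z c))) ?_ ?_ ?_
    · rw [norm_neg, norm_mul, hc01, hTc, mul_one]
    · intro z hz
      exact F_small L' (by rw [hr]; exact R.hA0) (by rw [hr]; exact R.hB0) (by rw [hr]; exact R.hC0)
        (xx_near L' hr0.le hr1 hkap hpsi hball hz) v
    · intro z w hz hw
      exact H_sub L' hr1 hkap hpsi hball har hlip hc0k hv hz hw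
  choose! Z hZ1 hZ2 using hroot
  have hmem' : ∀ z, ‖z - R.z b‖ ≤ r → M.Mem' N (xx L' x z) z := fun z hz =>
    M.inv2 (R.ty b) N (x z) z (tt L' x z) (by rw [← hr]; exact hball z hz) (hmem z hz) (kap_one L' hr1 hkap hball hz)
      (tt_mul L' hr1 hkap hball hz)
  have hnew : ∀ v, ‖v - R.z c‖ ≤ r → ‖tt L' x (Z v)‖ ≤ a ∧ ‖L.A (xx L' x (Z v))‖ = a * θ := by
    intro v hv
    obtain ⟨s, hs, hfac⟩ := hrt (Z v) (hZ1 v hv)
    exact lead_new L' hr1 hkap hpsi hball ha0 hTc hθ.symm hθr hib1 hcb1 hic (hZ1 v hv) hv hs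
      (hlead _ (hZ1 v hv)) hfac (hZ2 v hv) (M.on' _ _ _ (hmem' _ (hZ1 v hv)))
  have hvz : ∀ v z, ‖v - R.z c‖ ≤ r → ‖z - R.z b‖ ≤ r → ‖v - z‖ = 1 := by
    intro v z hv hz
    rw [← hcb1]
    refine norm_eq_of_sub_le (e := r) ?_ (by rw [hcb1]; exact hr1)
    have h4 : v - z - (R.z c - R.z b) = (v - R.z c) - (z - R.z b) := by ring
    rw [h4]
    exact sub_le hv hz
  have hne : ∀ v z, ‖v - R.z c‖ ≤ r → ‖z - R.z b‖ ≤ r → v ≠ z := by
    intro v z hv hz h4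
    have h5 := hvz v z hv hz
    rw [h4, sub_self, norm_zero] at h5
    exact zero_ne_one h5
  have hfac : ∀ v, ‖v - R.z c‖ ≤ r → ∀ w, L.F (xx L' x (Z v)) w = L.A (xx L' x (Z v)) * (w - v) * (w - Z v) :=
    fun v hv => F_factor L' (hZ2 v hv) (M.on' _ _ _ (hmem' _ (hZ1 v hv))) (hne v _ hv (hZ1 v hv))
  have haθ : a * θ = (p : ℝ) ^ (-(k + ex R i b : ℕ) : ℤ) := by
    rw [ha, hθex, ← zpow_add₀ hp0.ne']
    congr 1
    push_cast
    ring
  have hslope : ‖-(c0 * L.dF R.u0 (L.xi (R.ty b) R.u0 (R.z b)) (R.z c))‖ = 1 := by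
    rw [norm_neg, norm_mul, hc01, hTc, mul_one]
  refine ⟨fun v => xx L' x (Z v), ?_, ?_⟩
  · refine ⟨hbc, ?_, ?_, ?_, ?_, ?_, ?_⟩
    · have := h.hk
      omega
    · intro v hv
      rw [← hr] at hv ⊢
      exact xx_near L' hr0.le hr1 hkap hpsi hball (hZ1 v hv)
    · intro v hv
      rw [← hr] at hv
      refine M.inv1 N _ (Z v) v ?_ (hmem' _ (hZ1 v hv)) ?_ ?_
      · rw [← hr]
        exact xx_near L' hr0.le hr1 hkap hpsi hball (hZ1 v hv)
      · rw [← norm_pos_iff, (hnew v hv).2]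
        exact mul_pos ha0 (hr0.trans hθr)
      · intro w
        rw [hfac v hv w]
        ring
    · intro v hv
      rw [← hr] at hv
      rw [(hnew v hv).2, haθ]
    · intro v w hv hw
      rw [← hr] at hv hw
      rw [← haθ]
      refine (xx_sub L' hr1 hkap hpsi hball har hlip hc0k (hZ1 v hv) (hZ1 w hw)).trans (le_of_eq ?_)
      have h1 : ‖L.F (xx L' x (Z v)) v - L.F (xx L' x (Z w)) v -
          (-(c0 * L.dF R.u0 (L.xi (R.ty b) R.u0 (R.z b)) (R.z c))) * (Z v - Z w)‖ ≤ r * ‖Z v - Z w‖ :=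
        H_sub L' hr1 hkap hpsi hball har hlip hc0k hv (hZ1 v hv) (hZ1 w hw)
      rw [hZ2 v hv, zero_sub, hfac w hw v] at h1
      have h2 : ‖-(c0 * L.dF R.u0 (L.xi (R.ty b) R.u0 (R.z b)) (R.z c)) * (Z v - Z w)‖ = ‖Z v - Z w‖ := by
        rw [norm_mul, hslope, one_mul]
      have h3 : ‖-(L.A (xx L' x (Z w)) * (v - w) * (v - Z w))‖ = a * θ * ‖v - w‖ := by
        rw [norm_neg, norm_mul, norm_mul, (hnew w hw).2, hvz v _ hv (hZ1 w hw), mul_one]
      rcases eq_or_ne (Z v) (Z w) with h4 | h4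
      · rw [h4, sub_self, mul_zero, sub_zero, norm_zero, mul_zero, h3] at h1
        rw [h4, sub_self, norm_zero]
        exact le_antisymm (mul_nonneg (mul_pos ha0 (hr0.trans hθr)).le (norm_nonneg _)) h1
      · have h5 : 0 < ‖Z v - Z w‖ := norm_pos_iff.2 (sub_ne_zero.2 h4)
        rw [← h3, ← h2]
        symm
        refine norm_eq_of_sub_le h1 ?_
        rw [h2]
        exact mul_lt_of_lt_one_left h5 hr1
    · intro v hv
      rw [← hr] at hv ⊢
      exact ⟨Z v, hZ1 v hv, fun w => hfac v hv w⟩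
  · intro w hw
    rw [← hr] at hw
    refine ⟨Z w, tt L' x (Z w), ?_, ?_, tt_mul L' hr1 hkap hball (hZ1 w hw), rfl⟩
    · rw [← hr]
      exact hZ1 w hw
    · rw [← ha]
      exact (hnew w hw).1

end Pool.Agent.Helper24.HM
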