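import Pool.Agent.Helper24.HM.Linear
import Pool.Agent.Helper24.HM.Step
import Pool.Agent.Helper45.HN.Start

/-!
# Dynamics near a flop curve with several directions: the periodic path and its limit
-/

set_option autoImplicit false

namespace Pool.Agent.Helper24.HM

open Pool.Agent.Helper24.HN Filter Topology

open Pool.Agent.Helper45.HN (one_lt_p p2_pos norm_add_le' norm_mul_le' norm_sub_le' norm_smul_xi)

variable {p : ℕ} [Fact p.Prime] {n : ℕ} {I : Type}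

theorem vtri_le {a b c : V p n} {r : ℝ} (h1 : ‖a - b‖ ≤ r) (h2 : ‖b - c‖ ≤ r) : ‖a - c‖ ≤ r := by
  have h0 : 0 ≤ r := (norm_nonneg _).trans h1
  have := Pool.Agent.Helper69.HN.vadd_le h0 h1 h2
  rwa [sub_add_sub_cancel] at this

theorem zpow_anti {k l : ℕ} (h : k ≤ l) : (p : ℝ) ^ (-l : ℤ) ≤ (p : ℝ) ^ (-k : ℤ) :=
  zpow_le_zpow_right₀ one_lt_p.le (by omega)

theorem ppos (k : ℤ) : (0 : ℝ) < (p : ℝ) ^ k := zpow_pos (zero_lt_one.trans one_lt_p) _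

variable {L : LocM p n I} {J : Type} [DecidableEq J] {R : RefM L J} {M : MemsM L R}

/-- The values of a graph are near each other. -/
theorem StM.near {i b : J} {k N : ℕ} {x : ℤ_[p] → V p n} (h : StM M i b k N x) {z w : ℤ_[p]}
    (hz : ‖z - R.z b‖ ≤ (p : ℝ) ^ (-2 : ℤ)) (hw : ‖w - R.z b‖ ≤ (p : ℝ) ^ (-2 : ℤ)) :
    ‖x z - x w‖ ≤ (p : ℝ) ^ (-k : ℤ) := by
  refine (h.lip z w hz hw).trans ?_
  calc _ ≤ (p : ℝ) ^ (-k : ℤ) * 1 := mul_le_mul_of_nonneg_left (PadicInt.norm_le_one _) (ppos _).le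
    _ = _ := mul_one _

/-- The values of the next graph are near the values of the graph. -/
theorem link_near {i b c : J} {k N : ℕ} {x x' : ℤ_[p] → V p n} (h : StM M i b k N x) (hl : Link R k b c x x')
    {z w : ℤ_[p]} (hz : ‖z - R.z b‖ ≤ (p : ℝ) ^ (-2 : ℤ)) (hw : ‖w - R.z c‖ ≤ (p : ℝ) ^ (-2 : ℤ)) :
    ‖x' w - x z‖ ≤ (p : ℝ) ^ (-k : ℤ) := by
  obtain ⟨z', t, hz', ht, -, hx'⟩ := hl w hw
  refine vtri_le (b := x z') ?_ (StM.near h hz' hz)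
  rw [hx', sub_sub_cancel_left, norm_neg]
  exact (norm_smul_xi _ _).trans ht

theorem ok_jm : Ok R R.j R.m := ⟨R.hjm, R.hyj.symm, R.hym.symm, Or.inl R.hjm⟩

theorem ok_ml : Ok R R.m R.l := ⟨R.hml, R.hym.symm, R.hyl.symm, Or.inr R.hlj⟩

theorem ok_lj : Ok R R.l R.j := ⟨R.hlj, R.hyl.symm, R.hyj.symm, Or.inl R.hml.symm⟩

theorem ex_ij (i : J) : ex R i R.j = 0 := if_neg fun h => R.hjm h.2

theorem ex_jm : ex R R.j R.m = 1 := if_pos ⟨rfl, rfl⟩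

theorem ex_ml : ex R R.m R.l = 0 := if_neg fun h => R.hjm h.1.symm

theorem ex_lj : ex R R.l R.j = 0 := if_neg fun h => R.hlj h.1

/-- Three steps. -/
theorem three {k N : ℕ} {x : ℤ_[p] → V p n} (h : StM M R.l R.j k N x) :
    ∃ x' x'' x3 : ℤ_[p] → V p n, StM M R.l R.j (k + 1) (N + 3) x3 ∧ StM M R.j R.m k (N + 1) x' ∧
      Link R k R.j R.m x x' ∧ StM M R.m R.l (k + 1) (N + 2) x'' ∧ Link R k R.m R.l x' x'' ∧
      Link R (k + 1) R.l R.j x'' x3 := by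
  obtain ⟨x', h1, l1⟩ := step M h ok_jm R.hlj
  rw [ex_lj, add_zero] at h1
  obtain ⟨x'', h2, l2⟩ := step M h1 ok_ml R.hjm
  rw [ex_jm] at h2
  obtain ⟨x3, h3, l3⟩ := step M h2 ok_lj R.hml
  rw [ex_ml, add_zero] at h3
  exact ⟨x', x'', x3, h3, h1, l1, h2, l2, l3⟩

variable (M)

/-- D5a: the periodic path and its limit. -/
theorem limit {i0 : J} {k1 N1 : ℕ} {s0 : ℤ_[p] → V p n} (h0 : StM M i0 R.j k1 N1 s0) :
    ∃ (x1 : V p n) (k0 N0 : ℕ) (x : ℕ → ℤ_[p] → V p n), 3 ≤ k0 ∧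
      ‖x1 - R.u0‖ ≤ (p : ℝ) ^ (-2 : ℤ) ∧ L.A x1 = 0 ∧ L.B x1 = 0 ∧ L.C x1 = 0 ∧
      (∀ N, StM M R.l R.j (k0 + N) (N0 + 3 * N) (x N)) ∧
      (∀ N z, ‖z - R.z R.j‖ ≤ (p : ℝ) ^ (-2 : ℤ) →
        ‖x N z - x1‖ ≤ (p : ℝ) ^ (-(k0 + N : ℕ) : ℤ)) ∧
      ∀ N, ∃ x' x'' : ℤ_[p] → V p n, StM M R.j R.m (k0 + N) (N0 + 3 * N + 1) x' ∧
        Link R (k0 + N) R.j R.m (x N) x' ∧ StM M R.m R.l (k0 + N + 1) (N0 + 3 * N + 2) x'' ∧
        Link R (k0 + N) R.m R.l x' x'' ∧ Link R (k0 + N + 1) R.l R.j x'' (x (N + 1)) := by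
  classical
  obtain ⟨kk0, hkk0⟩ : ∃ kk0, kk0 = k1 + 1 := ⟨_, rfl⟩
  obtain ⟨NN0, hNN0⟩ : ∃ NN0, NN0 = N1 + 3 := ⟨_, rfl⟩
  have hk3 : 3 ≤ kk0 := by
    have := h0.hk
    omega
  obtain ⟨s1, h1, -⟩ := step M h0 ok_jm h0.hib
  rw [ex_ij, add_zero] at h1
  obtain ⟨s2, h2, -⟩ := step M h1 ok_ml R.hjm
  rw [ex_jm] at h2
  obtain ⟨s3, h3, -⟩ := step M h2 ok_lj R.hml
  rw [ex_ml, add_zero, ← hkk0] at h3
  have eN : N1 + 1 + 1 + 1 = NN0 := by omega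
  rw [eN] at h3
  -- the sequence
  have hstep : ∀ (N : ℕ) (x : {x : ℤ_[p] → V p n // StM M R.l R.j (kk0 + N) (NN0 + 3 * N) x}),
      ∃ y : {x : ℤ_[p] → V p n // StM M R.l R.j (kk0 + (N + 1)) (NN0 + 3 * (N + 1)) x},
        ∃ x' x'' : ℤ_[p] → V p n, StM M R.j R.m (kk0 + N) (NN0 + 3 * N + 1) x' ∧
        Link R (kk0 + N) R.j R.m x.1 x' ∧ StM M R.m R.l (kk0 + N + 1) (NN0 + 3 * N + 2) x'' ∧
        Link R (kk0 + N) R.m R.l x' x'' ∧ Link R (kk0 + N + 1) R.l R.j x'' y.1 := by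
    rintro N ⟨x, hx⟩
    obtain ⟨x', x'', x3, a1, a2, a3, a4, a5, a6⟩ := three hx
    exact ⟨⟨x3, a1⟩, x', x'', a2, a3, a4, a5, a6⟩
  choose f hf using hstep
  let s : ∀ N : ℕ, {x : ℤ_[p] → V p n // StM M R.l R.j (kk0 + N) (NN0 + 3 * N) x} :=
    fun N => Nat.rec ⟨s3, h3⟩ (fun N x => f N x) N
  have hs : ∀ N, s (N + 1) = f N (s N) := fun N => rfl
  obtain ⟨x, hx⟩ : ∃ x : ℕ → ℤ_[p] → V p n, ∀ N, x N = (s N).1 := ⟨_, fun N => rfl⟩
  have hSt : ∀ N, StM M R.l R.j (kk0 + N) (NN0 + 3 * N) (x N) := fun N => by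
    rw [hx]
    exact (s N).2
  have hLk : ∀ N, ∃ x' x'' : ℤ_[p] → V p n, StM M R.j R.m (kk0 + N) (NN0 + 3 * N + 1) x' ∧
        Link R (kk0 + N) R.j R.m (x N) x' ∧ StM M R.m R.l (kk0 + N + 1) (NN0 + 3 * N + 2) x'' ∧
        Link R (kk0 + N) R.m R.l x' x'' ∧ Link R (kk0 + N + 1) R.l R.j x'' (x (N + 1)) := fun N => by
    rw [hx, hx, hs]
    exact hf N (s N)
  have hz0 : ‖R.z R.j - R.z R.j‖ ≤ (p : ℝ) ^ (-2 : ℤ) := by
    rw [sub_self, norm_zero]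
    exact p2_pos.le
  -- one round
  have hround : ∀ N z w, ‖z - R.z R.j‖ ≤ (p : ℝ) ^ (-2 : ℤ) → ‖w - R.z R.j‖ ≤ (p : ℝ) ^ (-2 : ℤ) →
      ‖x (N + 1) w - x N z‖ ≤ (p : ℝ) ^ (-(kk0 + N : ℕ) : ℤ) := by
    intro N z w hz hw
    obtain ⟨x', x'', a1, a2, a3, a4, a5⟩ := hLk N
    have hm : ‖R.z R.m - R.z R.m‖ ≤ (p : ℝ) ^ (-2 : ℤ) := by
      rw [sub_self, norm_zero]
      exact p2_pos.le
    have hl : ‖R.z R.l - R.z R.l‖ ≤ (p : ℝ) ^ (-2 : ℤ) := by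
      rw [sub_self, norm_zero]
      exact p2_pos.le
    refine vtri_le (b := x'' (R.z R.l)) ((link_near a3 a5 hl hw).trans (zpow_anti (Nat.le_succ _))) ?_
    exact vtri_le (b := x' (R.z R.m)) (link_near a1 a4 hm hl) (link_near (hSt N) a2 hz hm)
  have hfar : ∀ N K z w, ‖z - R.z R.j‖ ≤ (p : ℝ) ^ (-2 : ℤ) → ‖w - R.z R.j‖ ≤ (p : ℝ) ^ (-2 : ℤ) →
      ‖x (N + K) w - x N z‖ ≤ (p : ℝ) ^ (-(kk0 + N : ℕ) : ℤ) := by
    intro N K
    induction K with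
    | zero =>
      intro z w hz hw
      exact StM.near (hSt N) hw hz
    | succ K ih =>
      intro z w hz hw
      refine vtri_le (b := x (N + K) (R.z R.j)) ?_ (ih z (R.z R.j) hz hz0)
      exact (hround (N + K) (R.z R.j) w hz0 hw).trans (zpow_anti (by omega))
  -- the limit
  have hcau : CauchySeq fun N => x N (R.z R.j) := by
    refine cauchySeq_of_le_geometric ((p : ℝ)⁻¹) 1 (inv_lt_one_of_one_lt₀ one_lt_p) fun N => ?_
    rw [dist_comm, dist_eq_norm, one_mul]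
    refine (hround N _ _ hz0 hz0).trans ?_
    rw [inv_pow, ← zpow_natCast, ← zpow_neg]
    exact zpow_anti (by omega)
  obtain ⟨x1, hx1⟩ := cauchySeq_tendsto_of_complete hcau
  have hclose : ∀ N z, ‖z - R.z R.j‖ ≤ (p : ℝ) ^ (-2 : ℤ) → ‖x N z - x1‖ ≤ (p : ℝ) ^ (-(kk0 + N : ℕ) : ℤ) := by
    intro N z hz
    have h1 : Tendsto (fun K => ‖x N z - x (N + K) (R.z R.j)‖) atTop (𝓝 ‖x N z - x1‖) := by
      refine (tendsto_const_nhds.sub ?_).norm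
      have := hx1.comp (tendsto_add_atTop_nat N)
      refine this.congr fun K => ?_
      simp only [Function.comp_apply, add_comm]
    refine le_of_tendsto' h1 fun K => ?_
    rw [norm_sub_rev]
    exact hfar N K z _ hz hz0
  have hF : ∀ v, L.F x1 v = 0 := by
    intro v
    have h1 : ∀ N : ℕ, ‖L.F x1 v‖ ≤ (p : ℝ) ^ (-(kk0 + N : ℕ) : ℤ) := by
      intro N
      have h2 : L.F x1 v = L.F (x N (R.z R.j)) v - (L.F (x N (R.z R.j)) v - L.F x1 v) := by ring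
      rw [h2]
      refine norm_sub_le' ?_ ((L.F_lip _ _ _).trans (hclose N _ hz0))
      obtain ⟨r, -, hr⟩ := (hSt N).rt _ hz0
      rw [hr v]
      exact norm_mul_le' (norm_mul_le' ((hSt N).lead _ hz0).le)
    have h3 : Tendsto (fun N : ℕ => (p : ℝ) ^ (-(kk0 + N : ℕ) : ℤ)) atTop (𝓝 0) := by
      have h4 : Tendsto (fun N : ℕ => ((p : ℝ)⁻¹) ^ (kk0 + N)) atTop (𝓝 0) := by
        have := (tendsto_pow_atTop_nhds_zero_of_lt_one (by positivity)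
          (inv_lt_one_of_one_lt₀ (one_lt_p (p := p)))).comp (tendsto_add_atTop_nat kk0)
        refine this.congr fun N => ?_
        simp only [Function.comp_apply, add_comm]
      refine h4.congr fun N => ?_
      rw [inv_pow, ← zpow_natCast, ← zpow_neg]
    have h5 : ‖L.F x1 v‖ ≤ 0 := ge_of_tendsto' h3 h1
    exact norm_le_zero_iff.1 h5
  have hC : L.C x1 = 0 := by simpa [LocM.F] using hF 0
  have hAB : L.A x1 + L.B x1 = 0 := by simpa [LocM.F, hC] using hF 1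
  have hAB' : L.A x1 - L.B x1 = 0 := by simpa [LocM.F, hC, sub_eq_add_neg] using hF (-1)
  have hA : L.A x1 = 0 := by
    have h1 : 2 * L.A x1 = 0 := by linear_combination hAB + hAB'
    rcases mul_eq_zero.1 h1 with h | h
    · exact absurd h two_ne_zero
    · exact h
  have hB : L.B x1 = 0 := by rwa [hA, zero_add] at hAB
  refine ⟨x1, kk0, NN0, x, hk3, ?_, hA, hB, hC, hSt, hclose, hLk⟩
  refine vtri_le (b := x 0 (R.z R.j)) ?_ ((hSt 0).ball _ hz0)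
  rw [norm_sub_rev]
  exact (hclose 0 _ hz0).trans (zpow_anti (k := 2) (by omega))

end Pool.Agent.Helper24.HM
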