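import Pool.Agent.Helper24.HM.Basic

/-!
# Dynamics near a flop curve: linearisation
-/

namespace Pool.Agent.Helper24.HM

open Pool.Agent.Helper24.HN

variable {p : ℕ} [Fact p.Prime] {n : ℕ} {I : Type}

section near

variable {L : LocM p n I} {J : Type} [DecidableEq J] (R : RefM L J)

theorem sl_unit {x : V p n} {a : J} (ha : a ≠ R.y) {z w : ℤ_[p]}
    (hx : ‖x - R.u0‖ ≤ (p : ℝ) ^ (-2 : ℤ)) (hz : ‖z - R.z a‖ ≤ (p : ℝ) ^ (-2 : ℤ))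
    (hw : ‖w - R.z a‖ ≤ (p : ℝ) ^ (-2 : ℤ)) : ‖L.sl (R.ty a) x z w‖ = 1 :=
  norm_eq_of_sub_lt (((L.hsl' _ _ _ _ _ _ _).trans (max_le hx (max_le hz hw))).trans_lt pow_two_le)
    (R.hsl a ha)

theorem kap_unit {x : V p n} {a : J} (ha : a ≠ R.y) {z : ℤ_[p]}
    (hx : ‖x - R.u0‖ ≤ (p : ℝ) ^ (-2 : ℤ)) (hz : ‖z - R.z a‖ ≤ (p : ℝ) ^ (-2 : ℤ)) :
    ‖L.kap (R.ty a) x z‖ = 1 :=
  norm_eq_of_sub_lt (((L.hkap _ _ _ _ _).trans (max_le hx hz)).trans_lt pow_two_le) (R.hkap a ha)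

theorem T_unit {x : V p n} {b c : J} (hb : Ok R b c) {w : ℤ_[p]} {v : V p n}
    (hx : ‖x - R.u0‖ ≤ (p : ℝ) ^ (-2 : ℤ)) (hz : ‖v - L.xi (R.ty b) R.u0 (R.z b)‖ ≤ (p : ℝ) ^ (-2 : ℤ))
    (hw : ‖w - R.z c‖ ≤ (p : ℝ) ^ (-2 : ℤ)) : ‖L.dF x v w‖ = 1 :=
  norm_eq_of_sub_lt ((L.dF_near _ _ _ _ _ _ hx hz hw).trans_lt pow_two_le)
    (R.hT c b hb.1.symm hb.2.1 hb.2.2.2.symm)

theorem xi_near {x : V p n} {b : J} {z : ℤ_[p]} (hx : ‖x - R.u0‖ ≤ (p : ℝ) ^ (-2 : ℤ))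
    (hz : ‖z - R.z b‖ ≤ (p : ℝ) ^ (-2 : ℤ)) :
    ‖L.xi (R.ty b) x z - L.xi (R.ty b) R.u0 (R.z b)‖ ≤ (p : ℝ) ^ (-2 : ℤ) :=
  (L.hxi _ _ _ _ _).trans (max_le hx hz)

/-- Points near the graph are near the zero. -/
theorem root_near {x x1 : V p n} {a : J} (ha : a ≠ R.y) {z ζ : ℤ_[p]} {r : ℝ}
    (h1 : ‖x1 - R.u0‖ ≤ (p : ℝ) ^ (-2 : ℤ)) (hz : ‖z - R.z a‖ ≤ (p : ℝ) ^ (-2 : ℤ))
    (hζ : ‖ζ - R.z a‖ ≤ (p : ℝ) ^ (-2 : ℤ)) (h0 : L.psi (R.ty a) x1 ζ = 0) (hx : ‖x - x1‖ ≤ r)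
    (hp : ‖L.psi (R.ty a) x z‖ ≤ r) : ‖z - ζ‖ ≤ r := by
  have e := L.hsl (R.ty a) x1 z ζ
  rw [h0, sub_zero] at e
  have h2 : ‖L.psi (R.ty a) x1 z‖ = ‖z - ζ‖ := by
    rw [e, norm_mul, sl_unit R ha h1 hz hζ, mul_one]
  rw [← h2]
  have h3 := (L.hpsi (R.ty a) x1 x z).trans ((norm_sub_rev _ _).le.trans hx)
  have := add_le' h3 hp
  rwa [sub_add_cancel] at this

end near

variable {L : LocM p n I} {J : Type} [DecidableEq J] {R : RefM L J} {M : MemsM L R}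

theorem kle {k : ℕ} (hk : 2 ≤ k) : (p : ℝ) ^ (-k : ℤ) ≤ (p : ℝ) ^ (-2 : ℤ) :=
  zpk_le (by omega)

theorem kk (k : ℕ) : (p : ℝ) ^ (-(2 * k) : ℤ) = (p : ℝ) ^ (-k : ℤ) * (p : ℝ) ^ (-k : ℤ) := by
  rw [← zpk_add]
  congr 1
  ring

/-- One step of the linearisation, with general last coordinate; also the size of the step. -/
theorem lin_step {b : J} {k : ℕ} (hk : 2 ≤ k) (hb : b ≠ R.y) {x x1 : V p n} {z t ζ : ℤ_[p]}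
    (h1 : ‖x1 - R.u0‖ ≤ (p : ℝ) ^ (-2 : ℤ)) (hz : ‖z - R.z b‖ ≤ (p : ℝ) ^ (-2 : ℤ))
    (hζ : ‖ζ - R.z b‖ ≤ (p : ℝ) ^ (-2 : ℤ)) (h0 : L.psi (R.ty b) x1 ζ = 0)
    (hx : ‖x - x1‖ ≤ (p : ℝ) ^ (-k : ℤ)) (ht : ‖t‖ ≤ (p : ℝ) ^ (-k : ℤ))
    (htk : t * L.kap (R.ty b) x z = L.psi (R.ty b) x z) :
    ‖z - ζ‖ ≤ (p : ℝ) ^ (-k : ℤ) ∧ ‖L.xi (R.ty b) x z - L.xi (R.ty b) x1 ζ‖ ≤ (p : ℝ) ^ (-k : ℤ) := by
  have h2 : ‖z - ζ‖ ≤ (p : ℝ) ^ (-k : ℤ) :=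
    root_near R hb h1 hz hζ h0 hx (by rw [← htk]; exact mul_le_left ht)
  exact ⟨h2, (L.hxi _ _ _ _ _).trans (max_le hx h2)⟩

/-- Linearisation at `x1`; the distance to `x1` is at most `p ^ (- q)`, `q ≤ k`. -/
theorem linear_gen {i b c : J} {k N k' q : ℕ} (hq : 2 ≤ q) (hqk : q ≤ k) {x x' : ℤ_[p] → V p n} (h : StM M i b k N x)
    (h' : StM M b c k' (N + 1) x') (hb : Ok R b c) (hl : Link R k b c x x') (x1 : V p n)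
    (h1 : ‖x1 - R.u0‖ ≤ (p : ℝ) ^ (-2 : ℤ)) (hA : L.A x1 = 0) (hB : L.B x1 = 0) (hC : L.C x1 = 0)
    (ζ : J → ℤ_[p]) (hζ : ∀ a, a ≠ R.y → ‖ζ a - R.z a‖ ≤ (p : ℝ) ^ (-2 : ℤ) ∧ L.psi (R.ty a) x1 (ζ a) = 0)
    (hx : ∀ z, ‖z - R.z b‖ ≤ (p : ℝ) ^ (-2 : ℤ) → ‖x z - x1‖ ≤ (p : ℝ) ^ (-q : ℤ))
    (w : ℤ_[p]) (hw : ‖w - R.z c‖ ≤ (p : ℝ) ^ (-2 : ℤ)) :
    ‖cst (x' w) - cst x1 - (lin L R.ty x1 ζ).T b w (cst (x (ζ b)) - cst x1)‖ ≤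
      (p : ℝ) ^ (-(2 * q) : ℤ) := by
  obtain ⟨z, t, hz, ht, htk, hx'⟩ := hl w hw
  have hby : b ≠ R.y := hb.2.1
  obtain ⟨hζb, h0⟩ := hζ b hby
  have hkq : (p : ℝ) ^ (-k : ℤ) ≤ (p : ℝ) ^ (-q : ℤ) := zpk_le (by omega)
  replace ht := ht.trans hkq
  set r : ℝ := (p : ℝ) ^ (-q : ℤ) with hr
  have hr0 : 0 < r := zpk_pos _
  have hr1 : r ≤ (p : ℝ) ^ (-2 : ℤ) := kle hq
  rw [kk, ← hr]
  obtain ⟨h2, h3⟩ := lin_step hq hby h1 hz hζb h0 (hx z hz) ht htk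
  -- the vectors
  set X : V p n := x (ζ b) - x1 with hX
  set v : V p n := L.xi (R.ty b) x1 (ζ b) with hv
  set δ : V p n := (x z - x (ζ b)) - t • (L.xi (R.ty b) (x z) z - v) with hδ
  have hδ' : ‖δ‖ ≤ r * r := by
    refine sub_le' ?_ (smul_le ht h3)
    exact (h.lip z (ζ b) hz hζb).trans (mul_le_mul hkq h2 (norm_nonneg _) hr0.le)
  have e1 : x' w - x1 = X - t • v + δ := by
    rw [hx', hX, hδ, smul_sub]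
    abel
  have hXn : ‖X‖ ≤ r := hx _ hζb
  have h4 : ‖x' w - x1‖ ≤ r := by
    rw [e1]
    refine add_le' (sub_le' hXn (smul_le_left ht)) (hδ'.trans ?_)
    exact mul_le_of_le_one_left hr0.le (hr1.trans pow_two_le.le)
  -- the equation
  have h5 : ‖L.dF x1 (x' w - x1) w‖ ≤ r * r := by
    have h6 := L.F_x' x1 (x' w) w
    have h7 : L.F (x' w) w = 0 := M.on _ _ _ (h'.mem w hw)
    have h8 : L.F x1 w = 0 := by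
      simp [LocM.F, hA, hB, hC]
    rw [h7, h8, sub_zero, zero_sub, norm_neg] at h6
    refine h6.trans ?_
    rw [sq]
    exact mul_le_mul h4 h4 (norm_nonneg _) hr0.le
  have h9 : ‖L.dF x1 X w - t * L.dF x1 v w‖ ≤ r * r := by
    have e2 : L.dF x1 X w - t * L.dF x1 v w = L.dF x1 (x' w - x1) w - L.dF x1 δ w := by
      rw [e1, L.dF_add x1 (X - t • v) δ w, L.dF_sub x1 X (t • v) w, L.dF_smul x1 v t w]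
      ring
    rw [e2]
    exact sub_le' h5 ((L.dF_le _ _ _).trans hδ')
  have hu : ‖L.dF x1 v w‖ = 1 := T_unit R hb h1 (xi_near R h1 hζb) hw
  -- over the field
  have h10 : ‖(L.dF x1 X w : ℚ_[p]) / (L.dF x1 v w : ℚ_[p]) - (t : ℚ_[p])‖ ≤ r * r := by
    have hne : (L.dF x1 v w : ℚ_[p]) ≠ 0 := by
      intro h0
      have : ‖(L.dF x1 v w : ℚ_[p])‖ = 1 := hu
      rw [h0, norm_zero] at this
      exact zero_ne_one this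
    have e3 : (L.dF x1 X w : ℚ_[p]) / (L.dF x1 v w : ℚ_[p]) - (t : ℚ_[p]) =
        ((L.dF x1 X w - t * L.dF x1 v w : ℤ_[p]) : ℚ_[p]) / (L.dF x1 v w : ℚ_[p]) := by
      rw [PadicInt.coe_sub, PadicInt.coe_mul]
      field_simp
    rw [e3, norm_div]
    have : ‖(L.dF x1 v w : ℚ_[p])‖ = 1 := hu
    rw [this, div_one]
    exact h9
  have e4 : cst (x' w) - cst x1 - (lin L R.ty x1 ζ).T b w (cst (x (ζ b)) - cst x1) =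
      cst δ + ((L.dF x1 X w : ℚ_[p]) / (L.dF x1 v w : ℚ_[p]) - (t : ℚ_[p])) • cst v := by
    have e5 : (lin L R.ty x1 ζ).v b = cst v := rfl
    rw [Lin.T, e5, ← cst_sub, ← cst_sub, ← hX, lin_phi, lin_phi, e1, cst_add, cst_sub, cst_smul,
      sub_smul]
    abel
  rw [e4]
  refine add_le' ?_ ?_
  · rw [cst_norm]
    exact hδ'
  · refine (norm_smul_le _ _).trans ?_
    rw [cst_norm]
    exact (mul_le_of_le_one_right (norm_nonneg _) (norm_le_one_V v)).trans h10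

theorem linear {i b c : J} {k N k' : ℕ} {x x' : ℤ_[p] → V p n} (h : StM M i b k N x)
    (h' : StM M b c k' (N + 1) x') (hb : Ok R b c) (hl : Link R k b c x x') (x1 : V p n)
    (h1 : ‖x1 - R.u0‖ ≤ (p : ℝ) ^ (-2 : ℤ)) (hA : L.A x1 = 0) (hB : L.B x1 = 0) (hC : L.C x1 = 0)
    (ζ : J → ℤ_[p]) (hζ : ∀ a, a ≠ R.y → ‖ζ a - R.z a‖ ≤ (p : ℝ) ^ (-2 : ℤ) ∧ L.psi (R.ty a) x1 (ζ a) = 0)
    (hx : ∀ z, ‖z - R.z b‖ ≤ (p : ℝ) ^ (-2 : ℤ) → ‖x z - x1‖ ≤ (p : ℝ) ^ (-k : ℤ))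
    (w : ℤ_[p]) (hw : ‖w - R.z c‖ ≤ (p : ℝ) ^ (-2 : ℤ)) :
    ‖cst (x' w) - cst x1 - (lin L R.ty x1 ζ).T b w (cst (x (ζ b)) - cst x1)‖ ≤
      (p : ℝ) ^ (-(2 * k) : ℤ) :=
  linear_gen h.hk le_rfl h h' hb hl x1 h1 hA hB hC ζ hζ hx w hw

end Pool.Agent.Helper24.HM
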