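import Pool.Agent.Helper24.HM.Linear
import Pool.Agent.Helper24.HM.Step
import Pool.Agent.Helper24.HN.Path

/-!
# Dynamics near a flop curve with several directions: paths
-/

set_option autoImplicit false

namespace Pool.Agent.Helper24.HM

open Pool.Agent.Helper24.HN Filter Topology

variable {p : ℕ} [Fact p.Prime] {n : ℕ} {I : Type}

variable {L : LocM p n I} {J : Type} [DecidableEq J] {R : RefM L J} (M : MemsM L R)

/-- The zeros of `psi x1`. -/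
theorem exists_zeta (x1 : V p n) (h1 : ‖x1 - R.u0‖ ≤ (p : ℝ) ^ (-2 : ℤ)) :
    ∃ ζ : J → ℤ_[p], ∀ a, a ≠ R.y → ‖ζ a - R.z a‖ ≤ (p : ℝ) ^ (-2 : ℤ) ∧ L.psi (R.ty a) x1 (ζ a) = 0 := by
  have h : ∀ a, ∃ ζ : ℤ_[p], a ≠ R.y → ‖ζ - R.z a‖ ≤ (p : ℝ) ^ (-2 : ℤ) ∧ L.psi (R.ty a) x1 ζ = 0 := by
    intro a
    by_cases ha : a = R.y
    · exact ⟨0, fun h => absurd ha h⟩
    · obtain ⟨z, hz, h0, -⟩ := Pool.Agent.Helper45.XN.exists_root (L.psi (R.ty a) x1) (R.z a)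
        ((p : ℝ) ^ (-2 : ℤ)) (zpk_pos _).le (fun z w hz hw => by
          rw [L.hsl, norm_mul, sl_unit R ha h1 hz hw, mul_one]) (by
          have := L.hpsi (R.ty a) x1 R.u0 (R.z a)
          rw [R.hpsi a ha, sub_zero] at this
          exact this.trans h1)
      exact ⟨z, fun _ => ⟨hz, h0⟩⟩
  choose ζ hζ using h
  exact ⟨ζ, hζ⟩

/-- The limit data. -/
structure LimData (R : RefM L J) (M : MemsM L R) (x1 : V p n) (ζ : J → ℤ_[p]) : Prop where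
  h1 : ‖x1 - R.u0‖ ≤ (p : ℝ) ^ (-2 : ℤ)
  hA : L.A x1 = 0
  hB : L.B x1 = 0
  hC : L.C x1 = 0
  hζ : ∀ a, a ≠ R.y → ‖ζ a - R.z a‖ ≤ (p : ℝ) ^ (-2 : ℤ) ∧ L.psi (R.ty a) x1 (ζ a) = 0

variable {M} {x1 : V p n} {ζ : J → ℤ_[p]}

theorem coe_le (a : ℤ_[p]) : ‖(a : ℚ_[p])‖ ≤ 1 := PadicInt.norm_le_one a

theorem LimData.unit (h : LimData R M x1 ζ) {b c : J} (hb : Ok R b c) {w : ℤ_[p]}
    (hw : ‖w - R.z c‖ ≤ (p : ℝ) ^ (-2 : ℤ)) : ‖(lin L R.ty x1 ζ).phi w ((lin L R.ty x1 ζ).v b)‖ = 1 := by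
  have e : (lin L R.ty x1 ζ).v b = cst (L.xi (R.ty b) x1 (ζ b)) := rfl
  rw [e, lin_phi]
  exact T_unit R hb h.h1 (xi_near R h.h1 (h.hζ b hb.2.1).1) hw

theorem LimData.T_le (h : LimData R M x1 ζ) {b c : J} (hb : Ok R b c) {w : ℤ_[p]}
    (hw : ‖w - R.z c‖ ≤ (p : ℝ) ^ (-2 : ℤ)) (X : Fin n → ℚ_[p]) :
    ‖(lin L R.ty x1 ζ).T b w X‖ ≤ ‖X‖ :=
  HN.T_le _ (fun _ => coe_le _) (fun _ => coe_le _) (fun _ => coe_le _) (coe_le _)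
    (by
      have e : (lin L R.ty x1 ζ).v b = cst (L.xi (R.ty b) x1 (ζ b)) := rfl
      rw [e, cst_norm]
      exact norm_le_one_V _) (h.unit hb hw) X

theorem LimData.Tp_le (h : LimData R M x1 ζ) (P : List J) : ∀ b, OkP R b P →
    ∀ X : Fin n → ℚ_[p], ‖(lin L R.ty x1 ζ).Tp b P X‖ ≤ ‖X‖ := by
  induction P with
  | nil => intro b _ X; exact le_rfl
  | cons c P ih =>
    intro b hb X
    exact (ih c hb.2 _).trans (h.T_le hb.1 (h.hζ c hb.1.2.2.1).1 X)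

/-- One step. -/
theorem LimData.one (h : LimData R M x1 ζ) {i b c : J} {k N k' q : ℕ} (hq : 2 ≤ q) (hqk : q ≤ k)
    {x x' : ℤ_[p] → V p n} (hx : StM M i b k N x) (hx' : StM M b c k' (N + 1) x') (hb : Ok R b c)
    (hl : Link R k b c x x')
    (hc : ∀ z, ‖z - R.z b‖ ≤ (p : ℝ) ^ (-2 : ℤ) → ‖x z - x1‖ ≤ (p : ℝ) ^ (-q : ℤ)) :
    (∀ z, ‖z - R.z c‖ ≤ (p : ℝ) ^ (-2 : ℤ) → ‖x' z - x1‖ ≤ (p : ℝ) ^ (-q : ℤ)) ∧
    ∀ w : ℤ_[p], ‖w - R.z c‖ ≤ (p : ℝ) ^ (-2 : ℤ) →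
      ‖cst (x' w) - cst x1 - (lin L R.ty x1 ζ).T b w (cst (x (ζ b)) - cst x1)‖ ≤
        (p : ℝ) ^ (-(2 * q) : ℤ) := by
  constructor
  · intro w hw
    obtain ⟨z, t, hz, ht, -, e⟩ := hl w hw
    have e2 : x' w - x1 = (x z - x1) - t • L.xi (R.ty b) (x z) z := by
      rw [e]
      abel
    rw [e2]
    exact sub_le' (hc z hz) ((smul_le_left ht).trans (zpk_le (by omega)))
  · intro w hw
    exact linear_gen hq hqk hx hx' hb hl x1 h.h1 h.hA h.hB h.hC ζ h.hζ hc w hw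

/-- A path. -/
theorem LimData.run (h : LimData R M x1 ζ) (P : List J) : ∀ {i b : J} {k N q : ℕ}, 2 ≤ q →
    q ≤ k → ∀ {x : ℤ_[p] → V p n}, StM M i b k N x → OkP R b P → b ≠ R.y →
    (∀ z, ‖z - R.z b‖ ≤ (p : ℝ) ^ (-2 : ℤ) → ‖x z - x1‖ ≤ (p : ℝ) ^ (-q : ℤ)) →
    ∃ (i' : J) (k' : ℕ) (x' : ℤ_[p] → V p n), StM M i' (lst b P) k' (N + P.length) x' ∧ q ≤ k' ∧
      lst b P ≠ R.y ∧
      (∀ z, ‖z - R.z (lst b P)‖ ≤ (p : ℝ) ^ (-2 : ℤ) → ‖x' z - x1‖ ≤ (p : ℝ) ^ (-q : ℤ)) ∧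
      ‖cst (x' (ζ (lst b P))) - cst x1 -
        (lin L R.ty x1 ζ).Tp b P (cst (x (ζ b)) - cst x1)‖ ≤ (p : ℝ) ^ (-(2 * q) : ℤ) := by
  induction P with
  | nil =>
    intro i b k N q hq hqk x hx _ hby hc
    refine ⟨i, k, x, hx, hqk, hby, hc, ?_⟩
    rw [Lin.Tp, lst, sub_self, norm_zero]
    exact (zpk_pos _).le
  | cons c P ih =>
    intro i b k N q hq hqk x hx hP hby hc
    obtain ⟨x2, hx2, hl⟩ := step M hx hP.1 hx.hib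
    obtain ⟨h2, h3⟩ := h.one hq hqk hx hx2 hP.1 hl hc
    obtain ⟨i', k', x', h4, h5, h6, h7, h8⟩ :=
      ih (q := q) hq (hqk.trans (Nat.le_add_right _ _)) hx2 hP.2 hP.1.2.2.1 h2
    refine ⟨i', k', x', ?_, h5, h6, h7, ?_⟩
    · have e : N + (c :: P).length = N + 1 + P.length := by
        rw [List.length_cons]
        omega
      rw [e]
      exact h4
    · have h9 := h3 (ζ c) (h.hζ c hP.1.2.2.1).1
      have h10 : ‖(lin L R.ty x1 ζ).Tp c P (cst (x2 (ζ c)) - cst x1) -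
          (lin L R.ty x1 ζ).Tp b (c :: P) (cst (x (ζ b)) - cst x1)‖ ≤ (p : ℝ) ^ (-(2 * q) : ℤ) := by
        have e : (lin L R.ty x1 ζ).Tp b (c :: P) (cst (x (ζ b)) - cst x1) =
          (lin L R.ty x1 ζ).Tp c P ((lin L R.ty x1 ζ).T b (ζ c) (cst (x (ζ b)) - cst x1)) := rfl
        rw [e, ← Lin.Tp_sub]
        exact (h.Tp_le P c hP.2 _).trans h9
      exact tri_le h8 h10

end Pool.Agent.Helper24.HM
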