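import Pool.Agent.Helper24.HM.Basic
import Pool.Agent.Helper45.HN.Start

/-!
# Dynamics near a flop curve with several directions: the first graph from a line
-/

set_option autoImplicit false

namespace Pool.Agent.Helper24.HM

open Pool.Agent.Helper24.HN

open Pool.Agent.Helper45.HN (one_lt_p p2_lt p2_pos norm_add_le' norm_mul_le' norm_sub_le' norm_smul_xi)

variable {p : ℕ} [Fact p.Prime] {n : ℕ} {I : Type} {L : LocM p n I} {J : Type} [DecidableEq J]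
  {R : RefM L J} (M : MemsM L R)

/-- D3: the first graph. -/
theorem start (v : V p n) (hv1 : ‖L.dF R.u0 v (R.z R.j)‖ = 1)
    (hst0 : ‖L.A R.u0 * L.dF R.u0 v (R.z R.j) - L.dA R.u0 v * L.F R.u0 (R.z R.j)‖ = (p : ℝ) ^ (-2 : ℤ))
    (line : ∀ t : ℤ_[p], ‖t‖ ≤ (p : ℝ) ^ (-2 : ℤ) → L.F (R.u0 + t • v) (R.z R.y) = 0)
    (start : ∀ t w : ℤ_[p], ‖t‖ ≤ (p : ℝ) ^ (-2 : ℤ) → L.A (R.u0 + t • v) ≠ 0 →
      (∀ u, L.F (R.u0 + t • v) u = L.A (R.u0 + t • v) * (u - R.z R.y) * (u - w)) →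
      M.Mem 0 (R.u0 + t • v) w) : ∃ x, StM M R.y R.j 2 0 x := by
  classical
  set c : ℤ_[p] := L.dF R.u0 v (R.z R.j) with hc
  have hc1 : ‖c‖ = 1 := hv1
  have hz : ∀ w : ℤ_[p], ‖w - R.z R.j‖ ≤ (p : ℝ) ^ (-2 : ℤ) → ‖w - R.z R.y‖ = 1 := by
    intro w hw
    have h1 : w - R.z R.y = (w - R.z R.j) + (R.z R.j - R.z R.y) := by ring
    have h2 : ‖R.z R.j - R.z R.y‖ = 1 := R.hz _ _ (Ne.symm R.hyj)
    have h3 : ‖w - R.z R.j‖ < 1 := hw.trans_lt (p2_lt.trans_le (zpow_le_one_of_nonpos₀ one_lt_p.le (by norm_num)))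
    rw [h1, IsUltrametricDist.norm_add_eq_max_of_norm_ne_norm (by rw [h2]; exact h3.ne), h2, max_eq_right h3.le]
  have hF0 : ∀ w, ‖L.F R.u0 w‖ ≤ (p : ℝ) ^ (-2 : ℤ) := fun w =>
    norm_add_le' (norm_add_le' (norm_mul_le' R.hA0) (norm_mul_le' R.hB0)) R.hC0
  have hsub : ∀ w s t : ℤ_[p], ‖w - R.z R.j‖ ≤ (p : ℝ) ^ (-2 : ℤ) → ‖s‖ ≤ (p : ℝ) ^ (-2 : ℤ) →
      ‖t‖ ≤ (p : ℝ) ^ (-2 : ℤ) →
      ‖L.F (R.u0 + s • v) w - L.F (R.u0 + t • v) w - c * (s - t)‖ ≤ (p : ℝ) ^ (-2 : ℤ) * ‖s - t‖ :=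
    fun w s t hw hs ht => Pool.Agent.Helper45.HN.line_sub L.base R.u0 v c w (R.z R.j) s t rfl hw hs ht
  -- the parameter
  have hex : ∀ w : ℤ_[p], ‖w - R.z R.j‖ ≤ (p : ℝ) ^ (-2 : ℤ) → ∃ t : ℤ_[p], ‖t‖ ≤ (p : ℝ) ^ (-2 : ℤ) ∧
      L.F (R.u0 + t • v) w = 0 := by
    intro w hw
    obtain ⟨t, ht, ht0, -⟩ := Pool.Agent.Helper45.XN.exists_root_of_slope (fun t => L.F (R.u0 + t • v) w) 0 c
      ((p : ℝ) ^ (-2 : ℤ)) p2_pos.le hc1 (fun s t hs ht => by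
        rw [sub_zero] at hs ht
        refine (hsub w s t hw hs ht).trans (mul_le_mul_of_nonneg_right ?_ (norm_nonneg _))
        rw [← zpow_neg_one]
        exact p2_lt.le) (by
        simpa using hF0 w)
    rw [sub_zero] at ht
    exact ⟨t, ht, ht0⟩
  choose! T hT hT0 using hex
  have hroots : ∀ w, ‖w - R.z R.j‖ ≤ (p : ℝ) ^ (-2 : ℤ) → ∀ s,
      L.F (R.u0 + T w • v) s = L.A (R.u0 + T w • v) * (s - R.z R.y) * (s - w) := by
    intro w hw s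
    have hne : w ≠ R.z R.y := by
      intro h
      have := hz w hw
      rw [h, sub_self, norm_zero] at this
      exact zero_ne_one this
    exact Pool.Agent.Helper45.HN.F_of_roots L.base _ hne (hT0 w hw) (line _ (hT w hw)) s
  have hlead : ∀ w, ‖w - R.z R.j‖ ≤ (p : ℝ) ^ (-2 : ℤ) →
      ‖L.A (R.u0 + T w • v)‖ = (p : ℝ) ^ (-2 : ℤ) := by
    intro w hw
    have hst : ‖L.A R.u0 * c - L.dA R.u0 v * L.F R.u0 (R.z R.j)‖ = (p : ℝ) ^ (-2 : ℤ) := hst0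
    have hT1 := hT w hw
    -- first order
    have h1 := L.hA R.u0 (T w • v)
    rw [map_smul, smul_eq_mul] at h1
    have h2 := hsub w (T w) 0 hw hT1 (by simpa using p2_pos.le)
    rw [hT0 w hw, zero_smul, add_zero, sub_zero, zero_sub] at h2
    have h4 : ‖T w • v‖ ^ 2 ≤ (p : ℝ) ^ (-2 : ℤ) * (p : ℝ) ^ (-2 : ℤ) := by
      rw [sq]
      exact mul_le_mul ((norm_smul_xi _ _).trans hT1) ((norm_smul_xi _ _).trans hT1) (norm_nonneg _) p2_pos.le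
    have h5 : ‖L.F R.u0 w - L.F R.u0 (R.z R.j)‖ ≤ (p : ℝ) ^ (-2 : ℤ) * (p : ℝ) ^ (-2 : ℤ) := by
      rw [show L.F R.u0 w - L.F R.u0 (R.z R.j) = _ from Pool.Agent.Helper45.HN.F_sub_z L.base R.u0 w (R.z R.j), norm_mul]
      exact mul_le_mul hw (norm_add_le' (norm_mul_le' R.hA0) R.hB0) (norm_nonneg _) p2_pos.le
    have h6 : (p : ℝ) ^ (-2 : ℤ) * (p : ℝ) ^ (-2 : ℤ) < (p : ℝ) ^ (-2 : ℤ) := by
      have : (p : ℝ) ^ (-2 : ℤ) < 1 :=
        p2_lt.trans_le (zpow_le_one_of_nonpos₀ one_lt_p.le (by norm_num))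
      nlinarith [p2_pos (p := p)]
    have e1 : c * L.A (R.u0 + T w • v) = (L.A R.u0 * c - L.dA R.u0 v * L.F R.u0 (R.z R.j)) +
        (c * (L.A (R.u0 + T w • v) - L.A R.u0 - T w * L.dA R.u0 v) -
          (-L.F R.u0 w - c * T w) * L.dA R.u0 v -
          (L.F R.u0 w - L.F R.u0 (R.z R.j)) * L.dA R.u0 v) := by ring
    have h7 : ‖c * (L.A (R.u0 + T w • v) - L.A R.u0 - T w * L.dA R.u0 v) -
          (-L.F R.u0 w - c * T w) * L.dA R.u0 v -
          (L.F R.u0 w - L.F R.u0 (R.z R.j)) * L.dA R.u0 v‖ ≤ (p : ℝ) ^ (-2 : ℤ) * (p : ℝ) ^ (-2 : ℤ) := by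
      refine norm_sub_le' (norm_sub_le' ?_ (norm_mul_le' ?_)) (norm_mul_le' h5)
      · rw [norm_mul, hc1, one_mul]
        exact h1.trans h4
      · exact h2.trans (mul_le_mul_of_nonneg_left hT1 p2_pos.le)
    have h8 : ‖c * L.A (R.u0 + T w • v)‖ = (p : ℝ) ^ (-2 : ℤ) := by
      rw [e1, IsUltrametricDist.norm_add_eq_max_of_norm_ne_norm (by
        rw [hst]
        exact (h7.trans_lt h6).ne'), hst, max_eq_left (h7.trans h6.le)]
    rwa [norm_mul, hc1, one_mul] at h8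
  have hne : ∀ w, ‖w - R.z R.j‖ ≤ (p : ℝ) ^ (-2 : ℤ) → L.A (R.u0 + T w • v) ≠ 0 := by
    intro w hw h
    have := hlead w hw
    rw [h, norm_zero] at this
    exact p2_pos.ne this
  refine ⟨fun w => R.u0 + T w • v, R.hyj, le_rfl, ?_, ?_, ?_, ?_, ?_⟩
  · intro w hw
    rw [add_sub_cancel_left]
    exact (norm_smul_xi _ _).trans (hT w hw)
  · intro w hw
    exact start (T w) w (hT w hw) (hne w hw) (hroots w hw)
  · intro w hw
    exact hlead w hw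
  · intro z w hz' hw
    have e1 : (R.u0 + T z • v) - (R.u0 + T w • v) = (T z - T w) • v := by
      rw [sub_smul]
      abel
    rw [e1]
    refine (norm_smul_xi _ _).trans ?_
    by_cases hzw : T z = T w
    · rw [hzw, sub_self, norm_zero]
      exact mul_nonneg p2_pos.le (norm_nonneg _)
    have h1 := hsub w (T z) (T w) hw (hT z hz') (hT w hw)
    rw [hT0 w hw, sub_zero, hroots z hz' w] at h1
    have h2 : ‖L.A (R.u0 + T z • v) * (w - R.z R.y) * (w - z)‖ = (p : ℝ) ^ (-2 : ℤ) * ‖z - w‖ := by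
      rw [norm_mul, norm_mul, hlead z hz', hz w hw, mul_one, norm_sub_rev w z]
    have h0 : 0 < ‖T z - T w‖ := norm_pos_iff.2 (sub_ne_zero.2 hzw)
    have h3 : ‖c * (T z - T w)‖ = ‖T z - T w‖ := by rw [norm_mul, hc1, one_mul]
    have h4 : (p : ℝ) ^ (-2 : ℤ) * ‖T z - T w‖ < ‖T z - T w‖ := by
      have : (p : ℝ) ^ (-2 : ℤ) < 1 :=
        p2_lt.trans_le (zpow_le_one_of_nonpos₀ one_lt_p.le (by norm_num))
      nlinarith
    have h5 : ‖T z - T w‖ ≤ ‖L.A (R.u0 + T z • v) * (w - R.z R.y) * (w - z)‖ := by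
      by_contra hcon
      push Not at hcon
      have h6 : ‖L.A (R.u0 + T z • v) * (w - R.z R.y) * (w - z) - c * (T z - T w)‖ = ‖T z - T w‖ := by
        rw [sub_eq_add_neg, IsUltrametricDist.norm_add_eq_max_of_norm_ne_norm (by
          rw [norm_neg, h3]
          exact hcon.ne), norm_neg, h3, max_eq_right hcon.le]
      rw [h6] at h1
      exact absurd h1 (not_le.2 h4)
    rwa [h2] at h5
  · intro w hw
    refine ⟨R.z R.y, ?_, fun s => ?_⟩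
    · rw [sub_self, norm_zero]
      exact p2_pos.le
    · rw [hroots w hw s]
      ring

end Pool.Agent.Helper24.HM
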